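import Pool.Agent.N411.CV.Cover
import Pool.Agent.W831.ECC.Lat

set_option autoImplicit false
set_option linter.unusedSectionVars false

/-!
Bottleneck vectors: if every edge `e` lies on a circuit on which `x` is at least `x e`, then
`2 ⌊x / 2⌋` has a circuit cover.
-/

namespace Pool.Agent.U389.SC

open Finset
open Pool.Agent.Helper879.ECD (F2 IsFlow f2_add_self f2_cases cn)
open Pool.Agent.H126R2.CDC (MGraph isFl_iff)
open Pool.Agent.H126R2.NC (InLat InIntCone TC circuit_tc cover_minus countP_sum)
open Pool.Agent.W831.ECC (intCone_add)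

variable {V E : Type} [Fintype V] [DecidableEq V] [Fintype E] [DecidableEq E]

/-- no cut meets a union of circuits in exactly one edge -/
lemma union_no_one_cut (G : MGraph V E) (v : E × Bool → V)
    (hv : ∀ e, G.ends e = s(v (e, false), v (e, true))) (H : Finset E)
    (hH : ∀ e ∈ H, ∃ C, G.IsCircuit C ∧ e ∈ C ∧ C ⊆ H) (X : Finset V) :
    cn (fun e => v (e, false)) (fun e => v (e, true)) H X ≠ 1 := by
  intro h
  unfold cn at h
  obtain ⟨e, he⟩ := Finset.card_eq_one.1 h
  have heH : e ∈ H := by
    have h0 : e ∈ ({e} : Finset E) := Finset.mem_singleton_self e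
    rw [← he] at h0
    exact (Finset.mem_filter.1 h0).1
  obtain ⟨C, hC, heC, hCH⟩ := hH e heH
  have h1 := (isFl_iff v _).1 ((G.isEven_iff v hv C).1 hC.isEven)
    (fun w => if w ∈ X then 1 else 0)
  have h2 : ∀ f ∈ (univ : Finset E), (if f ∈ C then (1 : F2) else 0) *
      ((if v (f, false) ∈ X then (1 : F2) else 0) + (if v (f, true) ∈ X then (1 : F2) else 0)) =
      if f = e then 1 else 0 := by
    intro f _
    by_cases hfC : f ∈ C
    · have hfH := hCH hfC
      have h3 : f ∈ H.filter (fun e => ¬ (v (e, false) ∈ X ↔ v (e, true) ∈ X)) ↔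
          f ∈ ({e} : Finset E) := by rw [he]
      rw [Finset.mem_filter, Finset.mem_singleton] at h3
      rw [if_pos hfC, one_mul]
      by_cases hfe : f = e
      · subst hfe
        have h4 := (h3.2 rfl).2
        rw [if_pos rfl]
        by_cases h5 : v (f, false) ∈ X
        · have h6 : v (f, true) ∉ X := fun h6 => h4 ⟨fun _ => h6, fun _ => h5⟩
          simp [h5, h6]
        · have h6 : v (f, true) ∈ X := by
            by_contra h6; exact h4 ⟨fun h => absurd h h5, fun h => absurd h h6⟩
          simp [h5, h6]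
      · have h4 : v (f, false) ∈ X ↔ v (f, true) ∈ X := by
          by_contra hcon
          exact hfe (h3.1 ⟨hfH, hcon⟩)
        rw [if_neg hfe]
        by_cases h5 : v (f, false) ∈ X
        · have h6 := h4.1 h5
          rw [if_pos h5, if_pos h6, f2_add_self]
        · have h6 : v (f, true) ∉ X := fun h => h5 (h4.2 h)
          rw [if_neg h5, if_neg h6, add_zero]
    · have hfe : f ≠ e := by
        rintro rfl
        exact hfC heC
      rw [if_neg hfC, if_neg hfe, zero_mul]
  rw [Finset.sum_congr rfl h2] at h1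
  simp at h1

/-- a union of circuits has a circuit double cover -/
lemma level_cover (G : MGraph V E) (H : Finset E)
    (hH : ∀ e ∈ H, ∃ C, G.IsCircuit C ∧ e ∈ C ∧ C ⊆ H) :
    InIntCone G (fun e => if e ∈ H then 2 else 0) := by
  obtain ⟨v, hv⟩ := G.exists_halves
  obtain ⟨F, hF1, hF2⟩ := cover_minus G v hv Hᶜ (fun B => by
    have h1 : (univ \ Hᶜ : Finset E) = H := by
      ext e; simp
    rw [h1]
    exact union_no_one_cut G v hv H hH B)
  refine ⟨F, hF1, fun e => ?_⟩
  rw [hF2 e]
  show _ = if e ∈ H then 2 else 0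
  by_cases he : e ∈ H
  · rw [if_neg (by simpa using he), if_pos he]
  · rw [if_pos (by simpa using he), if_neg he]

lemma intCone_sum' {ι : Type} (G : MGraph V E) (s : Finset ι) (p : ι → E → ℕ)
    (h : ∀ i ∈ s, InIntCone G (p i)) : InIntCone G (fun e => ∑ i ∈ s, p i e) := by
  classical
  induction s using Finset.induction_on with
  | empty => exact ⟨0, by simp, fun e => by simp⟩
  | insert i s hi ih =>
    have h1 := intCone_add (h i (Finset.mem_insert_self i s))
      (ih (fun j hj => h j (Finset.mem_insert_of_mem hj)))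
    have h2 : (fun e => ∑ j ∈ insert i s, p j e) = fun e => p i e + ∑ j ∈ s, p j e := by
      ext e
      rw [Finset.sum_insert hi]
    rw [h2]
    exact h1

/-- rounding of a bottleneck vector -/
lemma bottleneck_cover (G : MGraph V E) (x : E → ℝ) (hx : ∀ e, 0 < x e → ∃ C, G.IsCircuit C ∧ e ∈ C ∧ ∀ f ∈ C, x e ≤ x f) :
    InIntCone G (fun e => 2 * ⌊x e / 2⌋₊) := by
  classical
  set T : ℕ := ∑ e, ⌊x e / 2⌋₊ with hT
  have hle : ∀ e, ⌊x e / 2⌋₊ ≤ T := fun e =>
    Finset.single_le_sum (f := fun e => ⌊x e / 2⌋₊) (fun _ _ => Nat.zero_le _) (Finset.mem_univ e)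
  have h1 : ∀ t ∈ Finset.range T, InIntCone G
      (fun e => if e ∈ (univ.filter fun e => t < ⌊x e / 2⌋₊) then 2 else 0) := by
    intro t _
    apply level_cover
    intro e he
    have he2 : t < ⌊x e / 2⌋₊ := (Finset.mem_filter.1 he).2
    have hpos : 0 < x e := by
      have h2 : 0 < ⌊x e / 2⌋₊ := by omega
      have h3 := (Nat.floor_pos.1 h2)
      linarith
    obtain ⟨C, hC, heC, hCx⟩ := hx e hpos
    refine ⟨C, hC, heC, fun f hf => Finset.mem_filter.2 ⟨Finset.mem_univ _, ?_⟩⟩
    have h4 : ⌊x e / 2⌋₊ ≤ ⌊x f / 2⌋₊ := Nat.floor_mono (by linarith [hCx f hf])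
    omega
  have h2 := intCone_sum' G (Finset.range T) _ h1
  have h3 : (fun e => ∑ t ∈ Finset.range T,
      (if e ∈ (univ.filter fun e => t < ⌊x e / 2⌋₊) then 2 else 0)) =
      fun e => 2 * ⌊x e / 2⌋₊ := by
    ext e
    have h4 : ∀ t ∈ Finset.range T,
        (if e ∈ (univ.filter fun e => t < ⌊x e / 2⌋₊) then 2 else 0) =
        if t < ⌊x e / 2⌋₊ then 2 else 0 := by
      intro t _
      simp only [Finset.mem_filter, Finset.mem_univ, true_and]
    rw [Finset.sum_congr rfl h4, ← Finset.sum_filter, Finset.sum_const, smul_eq_mul]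
    have h5 : (Finset.range T).filter (fun t => t < ⌊x e / 2⌋₊) = Finset.range ⌊x e / 2⌋₊ := by
      ext t
      rw [Finset.mem_filter, Finset.mem_range, Finset.mem_range]
      have := hle e
      omega
    rw [h5, Finset.card_range, mul_comm]
  rw [h3] at h2
  exact h2

lemma circuit_card_le (G : MGraph V E) (C : Finset E) (hC : G.IsCircuit C) :
    C.card ≤ Fintype.card V := by
  classical
  obtain ⟨v, hv⟩ := G.exists_halves
  have h2 : ∑ w : V, G.deg C w = 2 * C.card := by
    have h3 : ∀ w ∈ (univ : Finset V), G.deg C w = ∑ e ∈ C, G.ep e w :=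
      fun w _ => G.deg_eq_sum C w
    rw [Finset.sum_congr rfl h3, Finset.sum_comm]
    have h4 : ∀ e ∈ C, ∑ w : V, G.ep e w = 2 := by
      intro e _
      have h5 : ∀ w ∈ (univ : Finset V), G.ep e w =
          (if v (e, false) = w then 1 else 0) + (if v (e, true) = w then 1 else 0) :=
        fun w _ => G.ep_eq (hv e) w
      rw [Finset.sum_congr rfl h5, Finset.sum_add_distrib]
      simp
    rw [Finset.sum_congr rfl h4, Finset.sum_const, smul_eq_mul, mul_comm]
  have h3 : ∑ w : V, G.deg C w ≤ ∑ _w : V, 2 := by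
    apply Finset.sum_le_sum
    intro w _
    rcases hC.2.1 w with h | h <;> omega
  rw [h2, Finset.sum_const, smul_eq_mul, Finset.card_univ] at h3
  omega

end Pool.Agent.U389.SC
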