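import Pool.Agent.U389.SC.Round
import Pool.Agent.N411.CV.Cover
import Pool.Agent.W831.ECC.Lat
import Pool.Agent.U389.SC.Level

set_option autoImplicit false
set_option linter.unusedSectionVars false

/-!
Circuit covers of weightings which are the sum of a near-constant vector and a fractional
combination of short circuits.
-/

namespace Pool.Agent.U389.SC

open Finset
open Pool.Agent.H126R2.CDC (MGraph)
open Pool.Agent.H126R2.NC (InLat InIntCone TC circuit_tc)
open Pool.Agent.W831.ECC (intCone_add intCone_even intCone_comb parity_of_lat bridgeless_of_lat)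

variable {V E : Type} [Fintype V] [DecidableEq V] [Fintype E] [DecidableEq E]

/-- the error of the rounding -/
noncomputable def err (ℓ N : ℕ) : ℝ := min (ℓ : ℝ) (bnd ℓ (1 + Real.log N))

lemma err_nonneg (ℓ N : ℕ) : 0 ≤ err ℓ N := by
  unfold err
  apply le_min (Nat.cast_nonneg _)
  have hX : 0 ≤ 1 + Real.log (N : ℝ) := by
    have := Real.log_natCast_nonneg N
    linarith
  rcases Nat.eq_zero_or_pos ℓ with h | h
  · subst h
    unfold bnd Pool.Agent.Results.MP_e8ee11_co.TailsForEverySet.bound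
    rw [Nat.cast_zero, Real.sqrt_zero, Real.log_zero]
    apply le_min
    · have h3 := Real.sqrt_nonneg (1 + Real.log (N : ℝ))
      rw [mul_zero, zero_add, add_zero, Real.one_rpow, mul_one]
      positivity
    · rw [mul_zero, zero_mul]
  · exact bnd_nonneg _ _ (by exact_mod_cast h) hX

lemma err_zero (N : ℕ) : err 0 N = 0 := by
  apply le_antisymm _ (err_nonneg 0 N)
  unfold err
  rw [Nat.cast_zero]
  exact min_le_left _ _

theorem rounding' {κ ι : Type} [Fintype κ] [DecidableEq κ] [Fintype ι] [DecidableEq ι]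
    (inc : κ → ι → Prop) [∀ e i, Decidable (inc e i)] (ℓ : ℕ)
    (hcol : ∀ i, (univ.filter fun e => inc e i).card ≤ ℓ) (z : ι → ℝ) (hz0 : ∀ i, 0 ≤ z i)
    (hz1 : ∀ i, z i ≤ 1) :
    ∃ y : ι → ℕ, (∀ i, y i ≤ 1) ∧
      ∀ e, |∑ i, (if inc e i then ((y i : ℝ) - z i) else 0)| ≤ err ℓ (Fintype.card κ) := by
  rcases Nat.eq_zero_or_pos ℓ with h | h
  · subst h
    obtain ⟨y, hy1, -, hy3⟩ := beck_fiala inc 0 hcol _ z hz0 hz1 le_rfl
    refine ⟨y, hy1, fun e => ?_⟩
    rw [err_zero]
    exact_mod_cast hy3 e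
  · exact rounding inc ℓ h hcol z hz0 hz1

lemma lat_const (G : MGraph V E) (e f : E) (h : ∀ C, G.IsCircuit C → (e ∈ C ↔ f ∈ C)) (x : E → ℤ)
    (hx : x ∈ AddSubgroup.closure
      {x : E → ℤ | ∃ C, G.IsCircuit C ∧ x = fun e => if e ∈ C then 1 else 0}) : x e = x f := by
  induction hx using AddSubgroup.closure_induction with
  | mem x hx =>
    obtain ⟨C, hC, rfl⟩ := hx
    simp only [h C hC]
  | zero => rfl
  | add x y _ _ hx hy => rw [Pi.add_apply, Pi.add_apply, hx, hy]
  | neg x _ hx => rw [Pi.neg_apply, Pi.neg_apply, hx]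

/-- the residue after the removal of circuits is still in the lattice -/
lemma lat_sub (G : MGraph V E) (p : E → ℕ) (hlat : InLat G p) (s : E → ℕ) (hs : InIntCone G s)
    (r : E → ℕ) (hr : ∀ e, r e + s e = p e) : InLat G r := by
  have hs' : InLat G s := (Pool.Agent.H126R2.NC.cone_lat_of_intCone G s hs).2
  have h1 : (fun e => (r e : ℤ)) = (fun e => (p e : ℤ)) - (fun e => (s e : ℤ)) := by
    ext e
    rw [Pi.sub_apply, ← hr e]
    push_cast
    ring
  unfold InLat at hlat hs' ⊢
  rw [h1]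
  exact AddSubgroup.sub_mem _ hlat hs'

/-- the core: a weighting in the lattice which is near-constant up to a member of the integer cone -/
theorem finish (G : MGraph V E) (p : E → ℕ) (hlat : InLat G p) (hpos : ∀ e, 0 < p e)
    (s : E → ℕ) (hs : InIntCone G s) (r : E → ℕ) (hr : ∀ e, r e + s e = p e)
    (h79 : ∀ e f, 7 * r e + 91 ≤ 9 * r f) : InIntCone G p := by
  classical
  have hbr : G.Bridgeless := bridgeless_of_lat G p hlat hpos
  obtain ⟨v, hv⟩ := G.exists_halves
  have hlat' : InLat G r := lat_sub G p hlat s hs r hr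
  set W : Finset E := univ.filter fun e => Odd (r e) with hW
  have hWev : G.IsEven W := parity_of_lat G r hlat'
  have hsplit : ∀ e, r e = 2 * (r e / 2) + (if e ∈ W then 1 else 0) := by
    intro e
    have hmem : e ∈ W ↔ Odd (r e) := by
      rw [hW, Finset.mem_filter]
      exact ⟨fun h => h.2, fun h => ⟨Finset.mem_univ _, h⟩⟩
    by_cases h : Odd (r e)
    · rw [if_pos (hmem.2 h)]
      rw [Nat.odd_iff] at h
      omega
    · rw [if_neg (fun h1 => h (hmem.1 h1))]
      rw [Nat.not_odd_iff_even, Nat.even_iff] at h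
      omega
  have hq : InIntCone G (fun e => 2 * (r e / 2)) := by
    refine Pool.Agent.N411.CV.cover_even G hbr v hv (fun e => r e / 2) ?_ ?_
    · intro e f hef
      have h1 : (r e : ℤ) = r f :=
        lat_const G e f (fun C hC => circuit_tc G v hv hC hef) _ hlat'
      have h2 : r e = r f := by exact_mod_cast h1
      simp only [h2]
    · intro e f
      have h7 := h79 e f
      show 7 * (r e / 2) + 41 ≤ 9 * (r f / 2)
      omega
  have h1 := intCone_add (intCone_add hq (intCone_even G W hWev)) hs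
  have h2 : (fun e => 2 * (r e / 2) + (if e ∈ W then 1 else 0) + s e) = p := by
    ext e
    rw [← hsplit e]
    exact hr e
  rw [h2] at h1
  exact h1

/-- **Main theorem.** -/
theorem main (G : MGraph V E) (p : E → ℕ) (hlat : InLat G p) (R : Finset E)
    (hR : ∀ e, ∃ f ∈ R, ∀ C, G.IsCircuit C → (e ∈ C ↔ f ∈ C)) (ℓ K : ℕ) (w : Finset E → ℝ)
    (hw0 : ∀ C, 0 ≤ w C) (hw1 : ∀ C, w C ≠ 0 → G.IsCircuit C ∧ (C ∩ R).card ≤ ℓ)
    (x : Fin K → E → ℝ) (hx0 : ∀ j e, 0 ≤ x j e)
    (hx : ∀ j e, 0 < x j e → ∃ C, G.IsCircuit C ∧ e ∈ C ∧ ∀ f ∈ C, x j e ≤ x j f) (r : E → ℝ)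
    (hw2 : ∀ e, (p e : ℝ) = r e + ∑ j, x j e + ∑ C : Finset E, w C * (if e ∈ C then 1 else 0))
    (hr : ∀ e f, 7 * r e + 16 * err ℓ R.card + 14 * K + 91 ≤ 9 * r f) : InIntCone G p := by
  classical
  set D := err ℓ R.card with hD
  have hD0 : 0 ≤ D := err_nonneg _ _
  have hK0 : (0 : ℝ) ≤ K := Nat.cast_nonneg _
  have hrD : ∀ e, 8 * D + 7 * K + 45 ≤ r e := fun e => by
    have := hr e e
    linarith
  have hpos : ∀ e, 0 < p e := by
    intro e
    have h1 : 0 ≤ ∑ C : Finset E, w C * (if e ∈ C then (1 : ℝ) else 0) :=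
      Finset.sum_nonneg fun C _ => mul_nonneg (hw0 C) (by split_ifs <;> norm_num)
    have h0 : 0 ≤ ∑ j, x j e := Finset.sum_nonneg fun j _ => hx0 j e
    have h2 := hw2 e
    have h3 := hrD e
    have h4 : (0 : ℝ) < p e := by linarith
    exact_mod_cast h4
  set s : Finset (Finset E) := univ.filter fun C => G.IsCircuit C ∧ (C ∩ R).card ≤ ℓ with hs
  have hsC : ∀ C ∈ s, G.IsCircuit C := fun C hC => (Finset.mem_filter.1 hC).2.1
  set θ : Finset E → ℝ := fun C => Int.fract (w C) with hθ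
  obtain ⟨y, hy1, hy2⟩ := rounding' (κ := ↥R) (ι := ↥s) (fun e C => e.1 ∈ C.1) ℓ
    (by
      intro C
      have h1 : (univ.filter fun e : ↥R => e.1 ∈ C.1).card ≤ (C.1 ∩ R).card := by
        rw [← Finset.card_map ⟨Subtype.val, Subtype.val_injective⟩]
        apply Finset.card_le_card
        intro e he
        rw [Finset.mem_map] at he
        obtain ⟨a, ha, rfl⟩ := he
        rw [Finset.mem_inter]
        exact ⟨(Finset.mem_filter.1 ha).2, a.2⟩
      exact h1.trans (Finset.mem_filter.1 C.2).2.2)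
    (fun C => θ C.1) (fun C => Int.fract_nonneg _) (fun C => (Int.fract_lt_one _).le)
  rw [Fintype.card_coe, ← hD] at hy2
  set n : Finset E → ℕ := fun C => ⌊w C⌋₊ + (if h : C ∈ s then y ⟨C, h⟩ else 0) with hn
  set dev : E → ℝ := fun e => ∑ C : ↥s, (if e ∈ C.1 then ((y C : ℝ) - θ C.1) else 0) with hdev
  have hdevD : ∀ e, |dev e| ≤ D := by
    intro e
    obtain ⟨f, hf, hef⟩ := hR e
    have h1 : dev e = ∑ C : ↥s, (if f ∈ C.1 then ((y C : ℝ) - θ C.1) else 0) := by
      simp only [hdev]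
      apply Finset.sum_congr rfl
      intro C _
      have h2 := hef C.1 (hsC C.1 C.2)
      by_cases h3 : e ∈ C.1
      · rw [if_pos h3, if_pos (h2.1 h3)]
      · rw [if_neg h3, if_neg (fun h => h3 (h2.2 h))]
    rw [h1]
    exact hy2 ⟨f, hf⟩
  set S : E → ℕ := fun e => ∑ C ∈ s, n C * (if e ∈ C then 1 else 0) with hSdef
  have hwsum : ∀ e, ∑ C : Finset E, w C * (if e ∈ C then (1 : ℝ) else 0) =
      ∑ C : ↥s, w C.1 * (if e ∈ C.1 then (1 : ℝ) else 0) := by
    intro e
    rw [Finset.sum_coe_sort s (fun C => w C * (if e ∈ C then (1 : ℝ) else 0))]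
    symm
    apply Finset.sum_subset (Finset.subset_univ s)
    intro C _ hC
    have h1 : w C = 0 := by
      by_contra hcon
      exact hC (Finset.mem_filter.2 ⟨Finset.mem_univ _, hw1 C hcon⟩)
    rw [h1, zero_mul]
  have hSreal : ∀ e, (S e : ℝ) = ∑ C : Finset E, w C * (if e ∈ C then (1 : ℝ) else 0) +
      dev e := by
    intro e
    rw [hwsum e]
    simp only [hSdef, hdev]
    rw [← Finset.sum_coe_sort s (fun C => n C * (if e ∈ C then 1 else 0)), Nat.cast_sum,
      ← Finset.sum_add_distrib]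
    apply Finset.sum_congr rfl
    intro C _
    by_cases he : e ∈ C.1
    · simp only [he, if_true, hn, hθ, mul_one, C.2, dif_pos]
      push_cast
      have h3 : ((⌊w C.1⌋₊ : ℕ) : ℝ) = (⌊w C.1⌋ : ℝ) :=
        natCast_floor_eq_intCast_floor (hw0 C.1)
      rw [h3]
      have h4 := Int.floor_add_fract (w C.1)
      have h5 : (⟨C.1, C.2⟩ : ↥s) = C := rfl
      linarith
    · simp [he]
  set Y : E → ℕ := fun e => ∑ j, 2 * ⌊x j e / 2⌋₊ with hY
  have hYcover : InIntCone G Y := intCone_sum' G univ (fun j e => 2 * ⌊x j e / 2⌋₊)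
    (fun j _ => bottleneck_cover G (x j) (hx j))
  have hYle : ∀ e, (Y e : ℝ) ≤ ∑ j, x j e := by
    intro e
    simp only [hY]
    rw [Nat.cast_sum]
    apply Finset.sum_le_sum
    intro j _
    push_cast
    have := Nat.floor_le (div_nonneg (hx0 j e) (by norm_num : (0 : ℝ) ≤ 2))
    linarith
  have hYge : ∀ e, ∑ j, x j e ≤ (Y e : ℝ) + 2 * K := by
    intro e
    have h1 : ((Y e : ℕ) : ℝ) + 2 * K = ∑ j : Fin K, ((2 * ⌊x j e / 2⌋₊ : ℕ) + 2 : ℝ) := by
      rw [Finset.sum_add_distrib, Finset.sum_const, Finset.card_univ, Fintype.card_fin,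
        nsmul_eq_mul]
      simp only [hY]
      rw [Nat.cast_sum]
      ring
    rw [h1]
    apply Finset.sum_le_sum
    intro j _
    push_cast
    have := Nat.lt_floor_add_one (x j e / 2)
    linarith
  set sT : E → ℕ := fun e => Y e + S e with hsT
  have hsTcover : InIntCone G sT := intCone_add hYcover (intCone_comb G s hsC n)
  have hle : ∀ e, sT e ≤ p e := by
    intro e
    have h1 := hSreal e
    have h2 := hrD e
    have h3 := (le_abs_self (dev e)).trans (hdevD e)
    have h5 := hYle e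
    have h6 := hw2 e
    have h4 : ((sT e : ℕ) : ℝ) ≤ p e := by
      simp only [hsT]
      push_cast
      linarith
    exact_mod_cast h4
  refine finish G p hlat hpos sT hsTcover (fun e => p e - sT e)
    (fun e => Nat.sub_add_cancel (hle e)) ?_
  have hreal : ∀ e, ((p e - sT e : ℕ) : ℝ) = (p e : ℝ) - Y e - S e := by
    intro e
    rw [Nat.cast_sub (hle e)]
    simp only [hsT]
    push_cast
    ring
  intro e f
  have h1 := hreal e
  have h2 := hreal f
  have h3 := (neg_abs_le (dev e)).trans' (neg_le_neg (hdevD e))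
  have h4 := (le_abs_self (dev f)).trans (hdevD f)
  have h5 := hr e f
  have h6 := hSreal e
  have h7 := hSreal f
  have h8 := hYge e
  have h9 := hYle f
  have h10 := hw2 e
  have h11 := hw2 f
  have h12 : (7 : ℝ) * ((p e - sT e : ℕ) : ℝ) + 91 ≤ 9 * ((p f - sT f : ℕ) : ℝ) := by
    rw [h1, h2]
    linarith
  exact_mod_cast h12

end Pool.Agent.U389.SC
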