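import Mathlib

set_option autoImplicit false
set_option linter.unusedSectionVars false

/-!
The Beck-Fiala rounding lemma: if every column of a `0/1` matrix has at most `ℓ` ones, then every
point of the cube can be rounded to a vertex with an error of at most `ℓ` in every row.
-/

namespace Pool.Agent.U389.SC

open Finset

variable {κ ι : Type} [Fintype κ] [DecidableEq κ] [Fintype ι] [DecidableEq ι]

/-- moving along a line inside the cube until a further coordinate becomes integral -/
lemma move (z u : ι → ℝ) (hz0 : ∀ i, 0 ≤ z i) (hz1 : ∀ i, z i ≤ 1)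
    (hu : ∀ i, z i = 0 ∨ z i = 1 → u i = 0) (hu0 : u ≠ 0) :
    ∃ t : ℝ, (∀ i, 0 ≤ z i + t * u i) ∧ (∀ i, z i + t * u i ≤ 1) ∧
      ∃ i, ¬ (z i = 0 ∨ z i = 1) ∧ (z i + t * u i = 0 ∨ z i + t * u i = 1) := by
  classical
  set S : Finset ι := univ.filter fun i => u i ≠ 0 with hS
  have hSne : S.Nonempty := by
    by_contra hcon
    rw [Finset.not_nonempty_iff_eq_empty] at hcon
    apply hu0
    ext i
    by_contra hi
    have : i ∈ S := Finset.mem_filter.2 ⟨Finset.mem_univ _, hi⟩
    rw [hcon] at this
    exact absurd this (Finset.notMem_empty _)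
  set τ : ι → ℝ := fun i => if 0 < u i then (1 - z i) / u i else z i / (-u i) with hτ
  obtain ⟨i0, hi0, hmin⟩ := Finset.exists_min_image S τ hSne
  have hi0' : u i0 ≠ 0 := (Finset.mem_filter.1 hi0).2
  have hτ0 : 0 ≤ τ i0 := by
    simp only [hτ]
    split_ifs with h
    · exact div_nonneg (by linarith [hz1 i0]) h.le
    · exact div_nonneg (hz0 i0) (by linarith)
  refine ⟨τ i0, ?_, ?_, i0, ?_, ?_⟩
  · intro i
    by_cases hui : u i = 0
    · rw [hui, mul_zero, add_zero]; exact hz0 i
    have h1 := hmin i (Finset.mem_filter.2 ⟨Finset.mem_univ _, hui⟩)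
    by_cases hp : 0 < u i
    · have := mul_nonneg hτ0 hp.le
      linarith [hz0 i]
    · have hneg : u i < 0 := lt_of_le_of_ne (not_lt.1 hp) hui
      have h2 : τ i = z i / (-u i) := by simp only [hτ, if_neg hp]
      rw [h2, le_div_iff₀ (by linarith)] at h1
      linarith
  · intro i
    by_cases hui : u i = 0
    · rw [hui, mul_zero, add_zero]; exact hz1 i
    have h1 := hmin i (Finset.mem_filter.2 ⟨Finset.mem_univ _, hui⟩)
    by_cases hp : 0 < u i
    · have h2 : τ i = (1 - z i) / u i := by simp only [hτ, if_pos hp]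
      rw [h2, le_div_iff₀ hp] at h1
      linarith
    · have hneg : u i < 0 := lt_of_le_of_ne (not_lt.1 hp) hui
      have := mul_nonneg hτ0 (by linarith : 0 ≤ -u i)
      linarith [hz1 i]
  · exact fun h => hi0' (hu i0 h)
  · by_cases hp : 0 < u i0
    · right
      simp only [hτ, if_pos hp]
      field_simp
      ring
    · left
      have hneg : u i0 < 0 := lt_of_le_of_ne (not_lt.1 hp) hi0'
      simp only [hτ, if_neg hp]
      have : -u i0 ≠ 0 := by linarith
      field_simp
      ring

/-- a nonzero direction which vanishes on the integral coordinates and keeps the sums of the rows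
with more than `ℓ` fractional entries -/
lemma direction (inc : κ → ι → Prop) [∀ e i, Decidable (inc e i)] (ℓ : ℕ)
    (hcol : ∀ i, (univ.filter fun e => inc e i).card ≤ ℓ) (F : Finset ι) (hF : F.Nonempty) :
    ∃ u : ι → ℝ, u ≠ 0 ∧ (∀ i, i ∉ F → u i = 0) ∧
      ∀ e, ℓ < (F.filter fun i => inc e i).card → ∑ i, (if inc e i then u i else 0) = 0 := by
  classical
  set A : Finset κ := univ.filter fun e => ℓ < (F.filter fun i => inc e i).card with hA
  have hcount : A.card < F.card := by
    rcases A.eq_empty_or_nonempty with hA0 | hA0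
    · rw [hA0, Finset.card_empty]; exact hF.card_pos
    have h1 : (∑ e ∈ A, (F.filter fun i => inc e i).card) ≤
        ∑ i ∈ F, (univ.filter fun e => inc e i).card := by
      have h2 : ∀ e, (F.filter fun i => inc e i).card = ∑ i ∈ F, if inc e i then 1 else 0 :=
        fun e => Finset.card_filter _ _
      have h3 : ∀ i, (univ.filter fun e => inc e i).card =
          ∑ e : κ, if inc e i then 1 else 0 := fun i => Finset.card_filter _ _
      simp only [h2, h3]
      rw [Finset.sum_comm]
      apply Finset.sum_le_sum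
      intro i _
      exact Finset.sum_le_sum_of_subset (Finset.subset_univ A)
    have h2 : ∑ i ∈ F, (univ.filter fun e => inc e i).card ≤ F.card * ℓ := by
      rw [← smul_eq_mul]
      exact Finset.sum_le_card_nsmul _ _ _ (fun i _ => hcol i)
    have h3 : A.card * (ℓ + 1) ≤ ∑ e ∈ A, (F.filter fun i => inc e i).card := by
      rw [← smul_eq_mul]
      exact Finset.card_nsmul_le_sum _ _ _ (fun e he => (Finset.mem_filter.1 he).2)
    have h4 : A.card * (ℓ + 1) ≤ F.card * ℓ := h3.trans (h1.trans h2)
    by_contra hcon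
    push Not at hcon
    have h5 : F.card * ℓ ≤ A.card * ℓ := Nat.mul_le_mul_right _ hcon
    have h6 := hA0.card_pos
    nlinarith
  let T : (ι → ℝ) →ₗ[ℝ] ((↥A ⊕ ↥(Fᶜ : Finset ι)) → ℝ) :=
    { toFun := fun u => Sum.elim (fun e => ∑ i, if inc e.1 i then u i else 0) (fun i => u i.1)
      map_add' := by
        intro u u'
        ext x
        rcases x with x | x
        · simp only [Sum.elim_inl, Pi.add_apply]
          rw [← Finset.sum_add_distrib]
          apply Finset.sum_congr rfl
          intro i _
          split_ifs <;> simp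
        · simp
      map_smul' := by
        intro c u
        ext x
        rcases x with x | x
        · simp only [Sum.elim_inl, Pi.smul_apply, smul_eq_mul, RingHom.id_apply]
          rw [Finset.mul_sum]
          apply Finset.sum_congr rfl
          intro i _
          split_ifs <;> simp
        · simp }
  have hlt : Module.finrank ℝ ((↥A ⊕ ↥(Fᶜ : Finset ι)) → ℝ) < Module.finrank ℝ (ι → ℝ) := by
    rw [Module.finrank_fintype_fun_eq_card, Module.finrank_fintype_fun_eq_card,
      Fintype.card_sum, Fintype.card_coe, Fintype.card_coe, Finset.card_compl]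
    have := Finset.card_le_univ F
    omega
  have hker := LinearMap.ker_ne_bot_of_finrank_lt (f := T) hlt
  obtain ⟨u, hu, hu0⟩ := (Submodule.ne_bot_iff _).1 hker
  rw [LinearMap.mem_ker] at hu
  refine ⟨u, hu0, ?_, ?_⟩
  · intro i hi
    have h1 := congrFun hu (Sum.inr ⟨i, Finset.mem_compl.2 hi⟩)
    exact h1
  · intro e he
    have h1 := congrFun hu (Sum.inl ⟨e, Finset.mem_filter.2 ⟨Finset.mem_univ _, he⟩⟩)
    exact h1

/-- **Beck-Fiala.** -/
theorem beck_fiala (inc : κ → ι → Prop) [∀ e i, Decidable (inc e i)] (ℓ : ℕ)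
    (hcol : ∀ i, (univ.filter fun e => inc e i).card ≤ ℓ) :
    ∀ (k : ℕ) (z : ι → ℝ), (∀ i, 0 ≤ z i) → (∀ i, z i ≤ 1) →
      (univ.filter fun i => ¬ (z i = 0 ∨ z i = 1)).card ≤ k →
      ∃ y : ι → ℕ, (∀ i, y i ≤ 1) ∧ (∀ i, z i = 0 ∨ z i = 1 → (y i : ℝ) = z i) ∧
        ∀ e, |∑ i, (if inc e i then ((y i : ℝ) - z i) else 0)| ≤ ℓ := by
  classical
  intro k
  induction k with
  | zero =>
    intro z hz0 hz1 hk
    have h0 : ∀ i, z i = 0 ∨ z i = 1 := by
      intro i
      by_contra hcon
      have h1 : i ∈ univ.filter fun i => ¬ (z i = 0 ∨ z i = 1) :=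
        Finset.mem_filter.2 ⟨Finset.mem_univ _, hcon⟩
      rw [Finset.card_eq_zero.1 (Nat.le_zero.1 hk)] at h1
      exact absurd h1 (Finset.notMem_empty _)
    have hy : ∀ i, (((if z i = 1 then 1 else 0 : ℕ)) : ℝ) = z i := by
      intro i
      rcases h0 i with h | h <;> simp [h]
    refine ⟨fun i => if z i = 1 then 1 else 0, fun i => by dsimp only; split_ifs <;> omega,
      fun i _ => hy i, ?_⟩
    intro e
    have h1 : ∑ i, (if inc e i then ((((if z i = 1 then 1 else 0 : ℕ)) : ℝ) - z i) else 0) = 0 := by
      apply Finset.sum_eq_zero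
      intro i _
      rw [hy i, sub_self, ite_self]
    rw [h1, abs_zero]
    exact Nat.cast_nonneg _
  | succ k ih =>
    intro z hz0 hz1 hk
    set F : Finset ι := univ.filter fun i => ¬ (z i = 0 ∨ z i = 1) with hFdef
    rcases F.eq_empty_or_nonempty with hF0 | hF0
    · exact ih z hz0 hz1 (by rw [← hFdef, hF0]; simp)
    obtain ⟨u, hu0, hu1, hu2⟩ := direction inc ℓ hcol F hF0
    have hu3 : ∀ i, z i = 0 ∨ z i = 1 → u i = 0 := fun i hi =>
      hu1 i (fun h => (Finset.mem_filter.1 h).2 hi)
    obtain ⟨t, ht0, ht1, i0, hi0, hi1⟩ := move z u hz0 hz1 hu3 hu0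
    set z' : ι → ℝ := fun i => z i + t * u i with hz'
    have hkeep : ∀ i, z i = 0 ∨ z i = 1 → z' i = z i := by
      intro i hi
      simp only [hz', hu3 i hi, mul_zero, add_zero]
    have hsub : (univ.filter fun i => ¬ (z' i = 0 ∨ z' i = 1)) ⊆ F.erase i0 := by
      intro i hi
      have hi2 := (Finset.mem_filter.1 hi).2
      rw [Finset.mem_erase]
      refine ⟨?_, ?_⟩
      · rintro rfl
        exact hi2 hi1
      · refine Finset.mem_filter.2 ⟨Finset.mem_univ _, fun h => hi2 ?_⟩
        rw [hkeep i h]
        exact h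
    have hi0F : i0 ∈ F := Finset.mem_filter.2 ⟨Finset.mem_univ _, hi0⟩
    have hcard : (univ.filter fun i => ¬ (z' i = 0 ∨ z' i = 1)).card ≤ k := by
      have h1 := Finset.card_le_card hsub
      rw [Finset.card_erase_of_mem hi0F] at h1
      omega
    obtain ⟨y, hy1, hy2, hy3⟩ := ih z' ht0 ht1 hcard
    have hyz : ∀ i, z i = 0 ∨ z i = 1 → (y i : ℝ) = z i := by
      intro i hi
      have h1 := hkeep i hi
      rw [hy2 i (by rw [h1]; exact hi), h1]
    refine ⟨y, hy1, hyz, ?_⟩
    intro e
    by_cases he : ℓ < (F.filter fun i => inc e i).card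
    · have h1 := hu2 e he
      have h2 : ∑ i, (if inc e i then ((y i : ℝ) - z i) else 0) =
          ∑ i, (if inc e i then ((y i : ℝ) - z' i) else 0) := by
        have h3 : ∑ i, (if inc e i then ((y i : ℝ) - z i) else 0) =
            ∑ i, (if inc e i then ((y i : ℝ) - z' i) else 0) +
              t * ∑ i, (if inc e i then u i else 0) := by
          rw [Finset.mul_sum, ← Finset.sum_add_distrib]
          apply Finset.sum_congr rfl
          intro i _
          simp only [hz']
          split_ifs <;> ring
        rw [h3, h1, mul_zero, add_zero]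
      rw [h2]
      exact hy3 e
    · have h1 : (F.filter fun i => inc e i).card ≤ ℓ := not_lt.1 he
      have h2 : ∀ i, |(if inc e i then ((y i : ℝ) - z i) else 0)| ≤
          if i ∈ F.filter (fun i => inc e i) then 1 else 0 := by
        intro i
        by_cases hi : inc e i
        · rw [if_pos hi]
          by_cases hiF : i ∈ F
          · rw [if_pos (Finset.mem_filter.2 ⟨hiF, hi⟩), abs_le]
            have h3 : (y i : ℝ) ≤ 1 := by exact_mod_cast hy1 i
            have h4 : (0 : ℝ) ≤ y i := Nat.cast_nonneg _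
            constructor
            · linarith [hz1 i]
            · linarith [hz0 i]
          · have h3 : z i = 0 ∨ z i = 1 := by
              by_contra hcon
              exact hiF (Finset.mem_filter.2 ⟨Finset.mem_univ _, hcon⟩)
            rw [hyz i h3, sub_self, abs_zero]
            split_ifs <;> norm_num
        · rw [if_neg hi, abs_zero]
          split_ifs <;> norm_num
      calc |∑ i, (if inc e i then ((y i : ℝ) - z i) else 0)|
          ≤ ∑ i, |(if inc e i then ((y i : ℝ) - z i) else 0)| := Finset.abs_sum_le_sum_abs _ _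
        _ ≤ ∑ i, (if i ∈ F.filter (fun i => inc e i) then (1 : ℝ) else 0) :=
            Finset.sum_le_sum (fun i _ => h2 i)
        _ = ((F.filter fun i => inc e i).card : ℝ) := by
            rw [Finset.sum_ite_mem, Finset.univ_inter, Finset.sum_const, nsmul_eq_mul, mul_one]
        _ ≤ ℓ := by exact_mod_cast h1

end Pool.Agent.U389.SC
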