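import Pool.Agent.U389.SC.BF
import Pool.Agent.Results.MP_e8ee11_co.TailsForEverySet

set_option autoImplicit false
set_option linter.unusedSectionVars false

/-!
Rounding a point of the cube to a vertex: with columns of at most `ℓ` ones the error in every row is
at most `min ℓ b`, where `b` is about `√ℓ + √X (1 + log ℓ)^{3/2}` with `X = 1 + log (number of rows)`.
-/

namespace Pool.Agent.U389.SC

open Finset

variable {κ ι : Type} [Fintype κ] [DecidableEq κ] [Fintype ι] [DecidableEq ι]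

/-- the bound of the start result on random colourings -/
noncomputable abbrev bnd (t X : ℝ) : ℝ := Pool.Agent.Results.MP_e8ee11_co.TailsForEverySet.bound t X

lemma bnd_nonneg (t X : ℝ) (ht : 1 ≤ t) (hX : 0 ≤ X) : 0 ≤ bnd t X := by
  unfold bnd Pool.Agent.Results.MP_e8ee11_co.TailsForEverySet.bound
  have h1 : 0 ≤ Real.log t := Real.log_nonneg ht
  apply le_min
  · have h2 : 0 ≤ (1 + Real.log t) ^ (3 / 2 : ℝ) := Real.rpow_nonneg (by linarith) _
    have h3 := Real.sqrt_nonneg t
    have h4 := Real.sqrt_nonneg X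
    positivity
  · have h2 : 0 ≤ X ^ (1 / 4 : ℝ) := Real.rpow_nonneg hX _
    have h3 := Real.sqrt_nonneg t
    positivity

lemma log_min_le (m n : ℕ) : Real.log ((min m n : ℕ) : ℝ) ≤ Real.log (m : ℝ) := by
  rcases Nat.eq_zero_or_pos (min m n) with h | h
  · rw [h, Nat.cast_zero, Real.log_zero]
    exact Real.log_natCast_nonneg m
  · apply Real.log_le_log
    · exact_mod_cast h
    · exact_mod_cast min_le_left m n

theorem rounding_disc (inc : κ → ι → Prop) [∀ e i, Decidable (inc e i)] (ℓ : ℕ) (hℓ : 1 ≤ ℓ)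
    (hcol : ∀ i, (univ.filter fun e => inc e i).card ≤ ℓ) (z : ι → ℝ) (hz0 : ∀ i, 0 ≤ z i)
    (hz1 : ∀ i, z i ≤ 1) :
    ∃ y : ι → ℕ, (∀ i, y i ≤ 1) ∧
      ∀ e, |∑ i, (if inc e i then ((y i : ℝ) - z i) else 0)| ≤
        bnd ℓ (1 + Real.log (Fintype.card κ)) := by
  classical
  set X : ℝ := 1 + Real.log (Fintype.card κ) with hX
  have hX1 : 1 ≤ X := by
    have := Real.log_natCast_nonneg (Fintype.card κ)
    linarith
  have ht : (1 : ℝ) ≤ ℓ := by exact_mod_cast hℓ
  let eκ := Fintype.equivFin κ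
  let eι := Fintype.equivFin ι
  let a : Fin (Fintype.card κ) → Fin (Fintype.card ι) → ℝ := fun i j =>
    if inc (eκ.symm i) (eι.symm j) then 1 else 0
  let x₀ : Fin (Fintype.card ι) → ℝ := fun j => 2 * z (eι.symm j) - 1
  obtain ⟨K, w, x, hw0, hw1, hx, -, hb, -⟩ :=
    Pool.Agent.Results.MP_e8ee11_co.TailsForEverySet.result (Fintype.card κ) (Fintype.card ι) a ℓ
      ht (fun i j => by simp only [a]; split_ifs <;> simp)
      (by
        intro j
        have h1 : ∑ i, a i j ^ 2 = ∑ e : κ, (if inc e (eι.symm j) then (1 : ℝ) else 0) := by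
          rw [← Equiv.sum_comp eκ]
          apply Finset.sum_congr rfl
          intro e _
          simp only [a, Equiv.symm_apply_apply]
          split_ifs <;> simp
        rw [h1, ← Finset.sum_filter, Finset.sum_const, nsmul_eq_mul, mul_one]
        exact_mod_cast hcol (eι.symm j))
      x₀ (fun j => by
        simp only [x₀]
        rw [abs_le]
        constructor
        · linarith [hz0 (eι.symm j)]
        · linarith [hz1 (eι.symm j)]) X hX1
  have hK : 0 < K := by
    rcases Nat.eq_zero_or_pos K with h | h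
    · subst h
      simp at hw1
    · exact h
  let k : Fin K := ⟨0, hK⟩
  have hx' : ∀ i : ι, (((if x k (eι i) = 1 then 1 else 0 : ℕ)) : ℝ) = (x k (eι i) + 1) / 2 := by
    intro i
    rcases hx k (eι i) with h | h
    · rw [h]; norm_num
    · rw [h]; norm_num
  refine ⟨fun i => if x k (eι i) = 1 then 1 else 0, fun i => by dsimp only; split_ifs <;> omega, ?_⟩
  intro e
  have h1 := hb k (eκ e)
  unfold Pool.Agent.Results.MP_e8ee11_co.TailsForEverySet.rowSum at h1
  have h2 : ∑ j, a (eκ e) j * (x k j - x₀ j) = 2 * ∑ i, (if inc e i then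
      ((((if x k (eι i) = 1 then 1 else 0 : ℕ)) : ℝ) - z i) else 0) := by
    rw [← Equiv.sum_comp eι, Finset.mul_sum]
    apply Finset.sum_congr rfl
    intro i _
    simp only [a, x₀, Equiv.symm_apply_apply]
    rw [hx' i]
    split_ifs <;> ring
  rw [h2, abs_mul, abs_two] at h1
  have h3 : Real.log ((min (Fintype.card κ) (Fintype.card ι) : ℕ) : ℝ) / X ≤ 1 := by
    rw [div_le_one (by linarith)]
    have := log_min_le (Fintype.card κ) (Fintype.card ι)
    linarith
  have h4 := bnd_nonneg (ℓ : ℝ) X ht (by linarith)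
  have h5 : bnd (ℓ : ℝ) X * (1 + Real.log ((min (Fintype.card κ) (Fintype.card ι) : ℕ) : ℝ) / X) ≤
      bnd (ℓ : ℝ) X * 2 := mul_le_mul_of_nonneg_left (by linarith) h4
  have h6 := h1.trans h5
  linarith

theorem rounding (inc : κ → ι → Prop) [∀ e i, Decidable (inc e i)] (ℓ : ℕ) (hℓ : 1 ≤ ℓ)
    (hcol : ∀ i, (univ.filter fun e => inc e i).card ≤ ℓ) (z : ι → ℝ) (hz0 : ∀ i, 0 ≤ z i)
    (hz1 : ∀ i, z i ≤ 1) :
    ∃ y : ι → ℕ, (∀ i, y i ≤ 1) ∧
      ∀ e, |∑ i, (if inc e i then ((y i : ℝ) - z i) else 0)| ≤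
        min (ℓ : ℝ) (bnd ℓ (1 + Real.log (Fintype.card κ))) := by
  classical
  rcases le_total (ℓ : ℝ) (bnd ℓ (1 + Real.log (Fintype.card κ))) with h | h
  · rw [min_eq_left h]
    obtain ⟨y, hy1, -, hy3⟩ := beck_fiala inc ℓ hcol _ z hz0 hz1 le_rfl
    exact ⟨y, hy1, hy3⟩
  · rw [min_eq_right h]
    exact rounding_disc inc ℓ hℓ hcol z hz0 hz1

end Pool.Agent.U389.SC
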